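import Pool.Agent.Helper18.KU.M10a
import Pool.Agent.Helper25.KU.M4
import Pool.Agent.Helper25.KU.M6
import Pool.Agent.Helper20.KU.M5

/-! KU row M10: the numerical conclusion. -/

namespace Pool.Agent.Helper18.KU

open CategoryTheory CategoryTheory.Limits CategoryTheory.Pretriangulated Module
open CategoryTheory.Triangulated
open Pool.Agent.Helper6.KE Pool.Agent.Helper6.NS Pool.Agent.Helper7.KU
open Pool.Agent.Helper25.KU (gsum ku_gr hd_ge_gr)
open Pool.Agent.Helper20.KU (simples_bound)

universe v u w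

variable {C : Type u} [Category.{v} C] [Preadditive C] [HasZeroObject C] [HasShift C ℤ]
  [∀ n : ℤ, (shiftFunctor C n).Additive] [Pretriangulated C]

lemma gr_ge (t : TStructure C) (n : ℤ) (X : C) : t.IsGE (gr t n X) n := by
  unfold gr
  infer_instance

lemma gr_le [IsTriangulated C] (t : TStructure C) (n : ℤ) (X : C) : t.IsLE (gr t n X) n := by
  have h : t.IsLE (gr t n X) (n + 1 - 1) := by
    unfold gr
    infer_instance
  rwa [add_sub_cancel_right] at h

lemma gr_zero_ge (t : TStructure C) (n m : ℤ) (X : C) (h : t.IsGE X m) (hn : n < m) :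
    IsZero (gr t n X) := by
  have h1 : t.IsGE X (n + 1) := t.isGE_of_ge X (n + 1) m (by omega)
  have h2 : IsZero ((t.truncLT (n + 1)).obj X) := t.isZero_truncLT_obj_of_isGE (n + 1) X
  unfold gr
  exact Functor.map_isZero (t.truncGE n) h2

lemma gr_zero_le [IsTriangulated C] (t : TStructure C) (n m : ℤ) (X : C) (h : t.IsLE X m)
    (hn : m < n) : IsZero (gr t n X) := by
  have h1 : t.IsLE X (n - 1) := t.isLE_of_le X m (n - 1) (by omega)
  have h2 : IsZero ((t.truncGE n).obj X) := t.isZero_truncGE_obj_of_isLE (n - 1) n (by ring) X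
  have h3 : IsZero ((t.truncLT (n + 1)).obj ((t.truncGE n).obj X)) :=
    Functor.map_isZero (t.truncLT (n + 1)) h2
  exact h3.of_iso ((t.truncGELTIsoLTGE n (n + 1)).app X)

variable {K : Type w} [Field K] [Linear K C]

lemma hd_zero_right (X : C) {Y : C} (h : IsZero Y) (n : ℤ) : hd K X Y n = 0 := by
  have h1 : IsZero (Y⟦n⟧) := Functor.map_isZero (shiftFunctor C n) h
  have hs : Subsingleton (X ⟶ Y⟦n⟧) := ⟨fun a b => h1.eq_of_tgt a b⟩
  exact finrank_zero_of_subsingleton

lemma chi_zero_right (X : C) {Y : C} (h : IsZero Y) : chi K X Y = 0 := by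
  unfold chi
  have : ∀ n : ℤ, ((n.negOnePow : ℤˣ) : ℤ) * (finrank K (X ⟶ Y⟦n⟧) : ℤ) = 0 := by
    intro n
    have h1 := hd_zero_right (K := K) X h n
    unfold hd at h1
    rw [h1]
    simp
  simp only [this, finsum_zero]

lemma chi_symm (D : EnriquesType K C) (X Y : C) : chi K X Y = chi K Y X := by
  have h := D.form_symm (D.cls X) (D.cls Y)
  rw [D.form_cls, D.form_cls] at h
  exact_mod_cast h

/-- Hodge index. -/
lemma hodge (D : EnriquesType K C) (L : Fin 10 → C) (hL : IsExcOrth K L) (X : C) :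
    chi K X X ≤ ∑ k, chi K (L k) X ^ 2 ∧
    (chi K X X = ∑ k, chi K (L k) X ^ 2 → ∀ F : C, Ku L F → chi K F X = 0) := by
  classical
  let l : Fin 10 → (Fin 12 → ℝ) := fun i => D.cls (L i)
  have hl : ∀ i j, D.form (l i) (l j) = if i = j then 1 else 0 := cls_L D L hL
  let x := D.cls X
  let y := x - ∑ i, D.form (l i) x • l i
  have hy : ∀ i, D.form (l i) y = 0 := by
    intro i
    simp only [y, map_sub, map_sum, map_smul, hl, smul_eq_mul]
    simp
  have hxy : D.form x x = ∑ i, D.form (l i) x ^ 2 + D.form y y := by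
    have h1 : D.form y y = D.form x y := by
      have : D.form y y = D.form x y - ∑ i, D.form (l i) x * D.form (l i) y := by
        conv_lhs => rw [show D.form y = D.form (x - ∑ i, D.form (l i) x • l i) from rfl]
        simp only [map_sub, map_sum, map_smul, LinearMap.sub_apply, LinearMap.sum_apply,
          LinearMap.smul_apply, smul_eq_mul]
      rw [this]
      simp [hy]
    have h2 : D.form x y = D.form x x - ∑ i, D.form (l i) x ^ 2 := by
      simp only [y, map_sub, map_sum, map_smul, smul_eq_mul]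
      congr 1
      refine Finset.sum_congr rfl fun i _ => ?_
      rw [D.form_symm x (l i)]
      ring
    rw [h1, h2]
    ring
  have hcl : ∀ i, D.form (l i) x = (chi K (L i) X : ℝ) := fun i => D.form_cls (L i) X
  have hxx : D.form x x = (chi K X X : ℝ) := D.form_cls X X
  have hneg : D.form y y ≤ 0 := by
    by_contra hcon
    push Not at hcon
    have := neg_of_orth D.form D.form_symm D.plane l hl y hy hcon.le
    rw [this] at hcon
    simp at hcon
  refine ⟨?_, fun heq F hF => ?_⟩
  · have : (chi K X X : ℝ) ≤ ∑ k, (chi K (L k) X : ℝ) ^ 2 := by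
      rw [← hxx, hxy]
      simp only [hcl]
      linarith
    exact_mod_cast this
  · have heq' : (chi K X X : ℝ) = ∑ k, (chi K (L k) X : ℝ) ^ 2 := by exact_mod_cast heq
    have hyy : D.form y y = 0 := by
      rw [← hxx, hxy] at heq'
      simp only [hcl] at heq'
      linarith
    have hy0 : y = 0 := neg_of_orth D.form D.form_symm D.plane l hl y hy hyy.ge
    have hx : x = ∑ i, D.form (l i) x • l i := sub_eq_zero.1 hy0
    have h3 : D.form (D.cls F) x = 0 := by
      rw [hx]
      simp only [map_sum, map_smul, smul_eq_mul]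
      refine Finset.sum_eq_zero fun i _ => ?_
      rw [D.form_symm (D.cls F) (l i)]
      have := cls_mem D L hF i
      change _ * D.form (D.cls (L i)) (D.cls F) = 0
      rw [this, mul_zero]
    have h4 : D.form (D.cls F) x = (chi K F X : ℝ) := D.form_cls F X
    rw [h4] at h3
    exact_mod_cast h3

variable [∀ n : ℤ, (shiftFunctor C n).Linear K]

lemma chi_W_right (D : EnriquesType K C) (X Y : C) : chi K X (D.W.obj Y) = chi K X Y := by
  rw [chi_serre, chi_symm D]

lemma hv_WW (D : EnriquesType K C) (X Y : C) (n : ℤ) (h : HV X Y n) :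
    HV (D.W.obj X) (D.W.obj Y) n := by
  have h1 : HV Y (D.W.obj X) (2 - n) := (hv_W_iff D (2 - n) n (by ring)).2 h
  exact (hv_W_iff D n (2 - n) (by ring)).2 h1

lemma hv_W_left' (D : EnriquesType K C) (X Y : C) (n : ℤ) (h : HV Y X (2 - n)) :
    HV (D.W.obj X) Y n := by
  have e : Y ≅ D.W.obj (D.W.obj Y) := (D.sq.app Y).symm
  have h1 : HV X (D.W.obj Y) n := (hv_W_iff D n (2 - n) (by ring)).2 h
  exact (hv_WW D X (D.W.obj Y) n h1).of_iso_right e

/-- surjection on dimensions, first map of a triangle -/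
lemma hd_le_first (D : EnriquesType K C) (Z : C) {X Y V : C} (f : X ⟶ Y) (g : Y ⟶ V)
    (δ : V ⟶ X⟦(1 : ℤ)⟧) (hT : Triangle.mk f g δ ∈ distTriang C) (m : ℤ) (h : HV Z V m) :
    hd K Z Y m ≤ hd K Z X m := by
  have := D.homFinite Z (X⟦m⟧)
  unfold hd
  refine LinearMap.finrank_le_finrank_of_surjective (f := post K Z (f⟦m⟧')) fun y => ?_
  obtain ⟨x, hx⟩ := coyo₂ _ hT m y (h _)
  exact ⟨x, hx.symm⟩

/-- surjection on dimensions, second map of a triangle -/
lemma hd_le_second (D : EnriquesType K C) (Z : C) {X Y V : C} (f : X ⟶ Y) (g : Y ⟶ V)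
    (δ : V ⟶ X⟦(1 : ℤ)⟧) (hT : Triangle.mk f g δ ∈ distTriang C) (m : ℤ) (h : HV Z X (m + 1)) :
    hd K Z V m ≤ hd K Z Y m := by
  have := D.homFinite Z (Y⟦m⟧)
  unfold hd
  refine LinearMap.finrank_le_finrank_of_surjective (f := post K Z (g⟦m⟧')) fun y => ?_
  have h1 : HV Z (X⟦(1 : ℤ)⟧) m := h.shift_right 1 m (by ring)
  obtain ⟨x, hx⟩ := coyo₂ _ (rot_of_distTriang _ hT) m y (h1 _)
  exact ⟨x, hx.symm⟩

section

variable [IsTriangulated C] (D : EnriquesType K C) (L : Fin 10 → C) (t : TStructure C)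
  (p : Fin 10 → ℤ) (h : Good D L t p)

include h

/-- Euler characteristic with `L k` of a piece of an object of the Kuznetsov component. -/
lemma chi_L_gr {X : C} (hX : Ku L X) (k : Fin 10) (n : ℤ) :
    chi K (L k) (gr t n X) = (((n - p k).negOnePow : ℤˣ) : ℤ) *
      ((hd K (L k) (gr t n X) (n - p k) : ℤ) + hd K (L k) (gr t (n + 1) X) (n + 1 - p k)) := by
  rw [chi_window (K := K) (L k) (gr t n X) (n - p k)]
  · have h1 := (ku_gr D L t p h X hX k).1 n
    have h2 := (ku_gr D L t p h X hX k).2 n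
    have h3 : hd K (L k) (gr t n X) (n - p k + 1) = 0 := by
      rw [show n - p k + 1 = n + 1 - p k by ring]
      exact hd_eq_zero h2
    have h4 : hd K (L k) (gr t n X) (n - p k + 2) = hd K (L k) (gr t (n + 1) X) (n + 1 - p k) := by
      rw [show n - p k + 2 = n + 2 - p k by ring]
      exact h1
    rw [h3, h4]
    push_cast
    ring
  · intro j hj
    rcases hj with hj | hj
    · exact van_low t (p k) n j (h.smp k).le (gr_ge t n X) (by omega)
    · exact van D t h.Wge (p k) n j (h.smp k).ge (gr_le t n X) (by omega)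

lemma chi_WL_gr (X : C) (k : Fin 10) (n : ℤ) :
    chi K (L k) (gr t n X) = (((n - p k).negOnePow : ℤˣ) : ℤ) *
      ((hd K (D.W.obj (L k)) (gr t n X) (n - p k) : ℤ)
        - hd K (D.W.obj (L k)) (gr t n X) (n - p k + 1)
        + hd K (D.W.obj (L k)) (gr t n X) (n - p k + 2)) := by
  have e : chi K (L k) (gr t n X) = chi K (D.W.obj (L k)) (gr t n X) := by
    rw [chi_symm D (D.W.obj (L k)), chi_serre]
  rw [e, chi_window (K := K) (D.W.obj (L k)) (gr t n X) (n - p k)]
  intro j hj
  rcases hj with hj | hj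
  · exact van_low t (p k) n j (h.smpW k).le (gr_ge t n X) (by omega)
  · exact van D t h.Wge (p k) n j (h.smpW k).ge (gr_le t n X) (by omega)

/-- the multiplicities are determined by the Euler characteristics -/
lemma mult_eq {X Y : C} (hX : Ku L X) (hY : Ku L Y) (k : Fin 10) (b : ℤ) (hXb : t.IsLE X (b - 1))
    (hYb : t.IsLE Y (b - 1))
    (hc : ∀ n, chi K (L k) (gr t n X) = chi K (L k) (gr t n Y)) (n : ℤ) :
    hd K (L k) (gr t n X) (n - p k) = hd K (L k) (gr t n Y) (n - p k) := by
  have hbig : ∀ n, b ≤ n → hd K (L k) (gr t n X) (n - p k) = hd K (L k) (gr t n Y) (n - p k) := by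
    intro n hn
    rw [hd_zero_right _ (gr_zero_le t n (b - 1) X hXb (by omega)),
      hd_zero_right _ (gr_zero_le t n (b - 1) Y hYb (by omega))]
  have hstep : ∀ n, hd K (L k) (gr t (n + 1) X) (n + 1 - p k) =
      hd K (L k) (gr t (n + 1) Y) (n + 1 - p k) →
      hd K (L k) (gr t n X) (n - p k) = hd K (L k) (gr t n Y) (n - p k) := by
    intro n hn
    have h1 := hc n
    rw [chi_L_gr D L t p h hX, chi_L_gr D L t p h hY, hn] at h1
    have hu : (((n - p k).negOnePow : ℤˣ) : ℤ) ≠ 0 := Units.ne_zero _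
    have h2 := mul_left_cancel₀ hu h1
    have h3 : (hd K (L k) (gr t n X) (n - p k) : ℤ) = hd K (L k) (gr t n Y) (n - p k) := by
      linarith
    exact_mod_cast h3
  have hall : ∀ m : ℕ, hd K (L k) (gr t (b - m) X) (b - m - p k) =
      hd K (L k) (gr t (b - m) Y) (b - m - p k) := by
    intro m
    induction m with
    | zero =>
      have := hbig b le_rfl
      simpa using this
    | succ m ih =>
      apply hstep
      have e : b - ((m + 1 : ℕ) : ℤ) + 1 = b - m := by push_cast; ring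
      rw [e]
      exact ih
  rcases le_total b n with hn | hn
  · exact hbig n hn
  · obtain ⟨m, hm⟩ : ∃ m : ℕ, n = b - m := ⟨(b - n).toNat, by omega⟩
    rw [hm]
    exact hall m

end

/-- M10: the numerical conclusion. -/
theorem finish [IsTriangulated C] (D : EnriquesType K C) (L : Fin 10 → C) (hL : IsExcOrth K L)
    (t : TStructure C) (p : Fin 10 → ℤ) (h : Good D L t p) {M B' : C} (hM : Ku L M)
    (hB : Ku L B') (hMB : HV M B' 1)
    (h1 : ∀ n, n ≠ p 0 → Nonempty (gr t n B' ≅ gr t n M))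
    (h2 : ∃ (R : C), t.IsLE R (p 0) ∧ t.IsGE R (p 0) ∧
      (∃ (f : D.W.obj (L 0) ⟶ gr t (p 0) B') (g : gr t (p 0) B' ⟶ R)
        (δ : R ⟶ (D.W.obj (L 0))⟦(1 : ℤ)⟧), Triangle.mk f g δ ∈ distTriang C) ∧
      (∃ (f : R ⟶ gr t (p 0) M) (g : gr t (p 0) M ⟶ L 0) (δ : L 0 ⟶ R⟦(1 : ℤ)⟧),
        Triangle.mk f g δ ∈ distTriang C)) :
    ∀ (n : ℤ) (F : C), Ku L F → chi K F (gr t n M) = 0 := by
  obtain ⟨R, -, -, ⟨f₁, g₁, δ₁, hT₁⟩, ⟨f₂, g₂, δ₂, hT₂⟩⟩ := h2
  -- bounds
  obtain ⟨a, b, hab, hMa, hMb, hBb⟩ : ∃ a b : ℤ, a ≤ b ∧ t.IsGE M (a + 1) ∧ t.IsLE M (b - 1) ∧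
      t.IsLE B' (b - 1) := by
    obtain ⟨⟨a₁, ha₁⟩, ⟨b₁, hb₁⟩⟩ := h.bdd M
    obtain ⟨-, ⟨b₂, hb₂⟩⟩ := h.bdd B'
    refine ⟨min (a₁ - 1) (max b₁ b₂ + 1), max b₁ b₂ + 1, min_le_right _ _, ?_, ?_, ?_⟩
    · exact t.isGE_of_ge M _ a₁ (by omega)
    · exact t.isLE_of_le M b₁ _ (by omega)
    · exact t.isLE_of_le B' b₂ _ (by omega)
  have hMa' : t.IsGE M a := t.isGE_of_ge M a (a + 1) (by omega)
  -- Euler characteristics agree
  have hchi : ∀ (X : C) (n : ℤ), chi K X (gr t n B') = chi K X (gr t n M) := by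
    intro X n
    by_cases hn : n = p 0
    · subst hn
      rw [chi_add D X f₁ g₁ δ₁ hT₁, chi_add D X f₂ g₂ δ₂ hT₂, chi_W_right]
      ring
    · obtain ⟨e⟩ := h1 n hn
      exact chi_iso_right X e
  have hAA : ∀ k n, hd K (L k) (gr t n B') (n - p k) = hd K (L k) (gr t n M) (n - p k) :=
    fun k n => mult_eq D L t p h hB hM k b hBb hMb (fun n => hchi (L k) n) n
  let A : Fin 10 → ℤ → ℤ := fun k n => hd K (L k) (gr t n M) (n - p k)
  let B : Fin 10 → ℤ → ℤ := fun k n => hd K (D.W.obj (L k)) (gr t n M) (n - p k)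
  let B1 : Fin 10 → ℤ → ℤ := fun k n => hd K (D.W.obj (L k)) (gr t n B') (n - p k)
  let T : Fin 10 → ℤ → ℤ := fun k n => hd K (gr t n M) (L k) (p k - n)
  let c : Fin 10 → ℤ → ℤ := fun k n => chi K (L k) (gr t n M)
  let U : ℤ → ℤ := fun n => hd K (gr t n M) ((t.truncGE (n + 1)).obj B') 1
  let V0 : ℤ → ℤ := fun n => hd K (gr t n M) (gr t n B') 0
  let V1 : ℤ → ℤ := fun n => hd K (gr t n M) (gr t n B') 1
  let V2 : ℤ → ℤ := fun n => hd K (gr t n M) (gr t n B') 2
  let E : ℤ → ℤ := fun n => chi K (gr t n M) (gr t n M)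
  have hAdef : ∀ k n, A k n = hd K (L k) (gr t n M) (n - p k) := fun k n => rfl
  have hTop : ∀ k n, hd K (gr t n M) (D.W.obj (L k)) (p k - n)
      = hd K (L k) (gr t (n + 1) M) (n + 1 - p k) := by
    intro k n
    rw [hd_toW D _ _ (p k - n) (n + 2 - p k) (by ring)]
    exact (ku_gr D L t p h M hM k).1 n
  have key : ∀ n ∈ Finset.Ico a b, E n = ∑ k, c k n ^ 2 := by
    refine numer a b hab A B B1 T c U V0 V1 V2 E ?_ ?_ ?_ ?_ ?_ ?_ ?_ ?_ ?_ ?_ ?_
    · intro k n
      exact Int.natCast_nonneg _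
    · intro k n
      by_cases hn : n = p 0
      · subst hn
        have hk1 : HV (D.W.obj (L k)) (L 0) (p 0 - p k) := by
          apply hv_W_left'
          by_cases hk : k = 0
          · subst hk
            exact hL.exc 0 _ (by omega)
          · exact hL.orth 0 k (Ne.symm hk) _
        have hk2 : HV (D.W.obj (L k)) (D.W.obj (L 0)) (p 0 - p k + 1) := by
          apply hv_WW
          by_cases hk : k = 0
          · subst hk
            exact hL.exc 0 _ (by omega)
          · exact hL.orth k 0 hk _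
        have g1 := hd_le_first (K := K) D (D.W.obj (L k)) f₂ g₂ δ₂ hT₂ (p 0 - p k) hk1
        have g2 := hd_le_second (K := K) D (D.W.obj (L k)) f₁ g₁ δ₁ hT₁ (p 0 - p k) hk2
        exact Int.ofNat_le.2 (g1.trans g2)
      · obtain ⟨e⟩ := h1 n hn
        exact (congrArg (Nat.cast : ℕ → ℤ)
          (hd_iso (Iso.refl (D.W.obj (L k))) e (n - p k))).ge
    · have := gsum D t h.Wge M B' a b hab hMa' hMb
      rw [hd_eq_zero hMB, zero_add] at this
      have h5 := Int.ofNat_le.2 this
      rw [Nat.cast_sum, Nat.cast_sum] at h5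
      simp only [Nat.cast_add] at h5
      exact h5
    · intro n
      change chi K (gr t n M) (gr t n M) = _
      rw [← hchi, chi_window (K := K) (gr t n M) (gr t n B') 0]
      · simp only [Int.negOnePow_zero, Units.val_one, one_mul, zero_add]
        rfl
      · intro j hj
        rcases hj with hj | hj
        · exact van_low t n n j (gr_le t n M) (gr_ge t n B') (by omega)
        · exact van D t h.Wge n n j (gr_ge t n M) (gr_le t n B') (by omega)
    · intro n
      have hYge : t.IsGE ((t.truncGE (n + 1)).obj B') (n + 1) := inferInstance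
      have := simples_bound D L hL t p h n 1 (gr t n M) ((t.truncGE (n + 1)).obj B')
        (gr_le t n M) hYge
      refine le_trans (le_of_eq ?_) (Int.ofNat_le.2 this)
      push_cast
      refine Finset.sum_congr rfl fun k _ => ?_
      rw [hd_ge_gr t (L k) B' (p k) (n + 1) (h.smp k).le,
        hd_ge_gr t (D.W.obj (L k)) B' (p k) (n + 1) (h.smpW k).le, hTop, hAA]
    · intro n
      have hYge : t.IsGE (gr t n B') (n + 0) := by
        rw [add_zero]
        exact gr_ge t n B'
      have := simples_bound D L hL t p h n 0 (gr t n M) (gr t n B') (gr_le t n M) hYge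
      refine le_trans (le_of_eq ?_) (Int.ofNat_le.2 this)
      push_cast
      refine Finset.sum_congr rfl fun k _ => ?_
      rw [add_zero, hTop, hAA]
    · intro k n
      change chi K (L k) (gr t n M) ^ 2 = _
      rw [chi_L_gr D L t p h hM, mul_pow]
      have hu : ((((n - p k).negOnePow : ℤˣ) : ℤ)) ^ 2 = 1 := by
        rw [← Units.val_pow_eq_pow_val, Int.units_sq, Units.val_one]
      rw [hu, one_mul]
    · intro k n
      have e1 := chi_L_gr D L t p h hM k n
      rw [chi_WL_gr D L t p h M k n] at e1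
      have hu : (((n - p k).negOnePow : ℤˣ) : ℤ) ≠ 0 := Units.ne_zero _
      have e2 := mul_left_cancel₀ hu e1
      have e3 : hd K (gr t n M) (L k) (p k - n)
          = hd K (D.W.obj (L k)) (gr t n M) (n - p k + 2) :=
        hd_to D _ _ (p k - n) (n - p k + 2) (by ring)
      change (hd K (L k) (gr t n M) (n - p k) : ℤ) + hd K (L k) (gr t (n + 1) M) (n + 1 - p k) ≤
        hd K (D.W.obj (L k)) (gr t n M) (n - p k) + hd K (gr t n M) (L k) (p k - n)
      rw [e3]
      have e4 : (0 : ℤ) ≤ hd K (D.W.obj (L k)) (gr t n M) (n - p k + 1) := Int.natCast_nonneg _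
      linarith
    · intro k
      change ((hd K (L k) (gr t a M) (a - p k) : ℕ) : ℤ) = 0
      rw [hd_zero_right _ (gr_zero_ge t a (a + 1) M hMa (by omega))]
      rfl
    · intro k
      change ((hd K (L k) (gr t b M) (b - p k) : ℕ) : ℤ) = 0
      rw [hd_zero_right _ (gr_zero_le t b (b - 1) M hMb (by omega))]
      rfl
    · intro n
      exact (hodge D L hL (gr t n M)).1
  intro n F hF
  by_cases hn : n ∈ Finset.Ico a b
  · exact (hodge D L hL (gr t n M)).2 (key n hn) F hF
  · rw [Finset.mem_Ico] at hn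
    push Not at hn
    by_cases hna : a ≤ n
    · exact chi_zero_right F (gr_zero_le t n (b - 1) M hMb (by have := hn hna; omega))
    · exact chi_zero_right F (gr_zero_ge t n (a + 1) M hMa (by omega))

end Pool.Agent.Helper18.KU
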