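import Pool.Agent.Helper6.NS.Van
import Pool.Agent.Helper7.KU.M3

/-! KU row M10, part 1: additivity of the Euler form, numerical lemma. -/

namespace Pool.Agent.Helper18.KU

open CategoryTheory CategoryTheory.Limits CategoryTheory.Pretriangulated Module
open CategoryTheory.Triangulated
open Pool.Agent.Helper6.KE Pool.Agent.Helper6.NS Pool.Agent.Helper7.KU

lemma sum_Ico_tel (f : ℤ → ℤ) (a : ℤ) (m : ℕ) :
    ∑ n ∈ Finset.Ico a (a + m), f (n + 1) = ∑ n ∈ Finset.Ico a (a + m), f n + f (a + m) - f a := by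
  induction m with
  | zero => simp
  | succ m ih =>
    have h : Finset.Ico a (a + ((m + 1 : ℕ) : ℤ)) = insert (a + m) (Finset.Ico a (a + m)) := by
      ext x
      simp only [Finset.mem_Ico, Finset.mem_insert]
      push_cast
      constructor <;> intro hx <;> omega
    rw [h, Finset.sum_insert (by simp), Finset.sum_insert (by simp), ih]
    push_cast
    rw [← add_assoc]
    ring

lemma numer (a b : ℤ) (hab : a ≤ b) (A B B' T c : Fin 10 → ℤ → ℤ) (U V0 V1 V2 E : ℤ → ℤ)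
    (hA : ∀ k n, 0 ≤ A k n) (hBB : ∀ k n, B k n ≤ B' k n)
    (h1 : ∑ n ∈ Finset.Ico a b, (U n + V1 n) ≤ ∑ n ∈ Finset.Ico a b, V2 n)
    (h2 : ∀ n, E n = V0 n - V1 n + V2 n)
    (h3 : ∀ n, ∑ k, (T k n * A k (n + 1) + A k (n + 1) * B' k (n + 1)) ≤ U n)
    (h4 : ∀ n, ∑ k, (T k n * A k n + A k (n + 1) * B' k n) ≤ V0 n)
    (h6 : ∀ k n, c k n ^ 2 = (A k n + A k (n + 1)) ^ 2)
    (h7 : ∀ k n, A k n + A k (n + 1) ≤ B k n + T k n)
    (hAa : ∀ k, A k a = 0) (hAb : ∀ k, A k b = 0)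
    (hE : ∀ n, E n ≤ ∑ k, c k n ^ 2) : ∀ n ∈ Finset.Ico a b, E n = ∑ k, c k n ^ 2 := by
  have key : ∑ n ∈ Finset.Ico a b, ∑ k, c k n ^ 2 ≤ ∑ n ∈ Finset.Ico a b, E n := by
    have e1 : ∑ n ∈ Finset.Ico a b, E n = ∑ n ∈ Finset.Ico a b, V0 n
        - ∑ n ∈ Finset.Ico a b, V1 n + ∑ n ∈ Finset.Ico a b, V2 n := by
      rw [← Finset.sum_sub_distrib, ← Finset.sum_add_distrib]
      exact Finset.sum_congr rfl fun n _ => h2 n
    rw [Finset.sum_add_distrib] at h1
    have e2 : ∑ n ∈ Finset.Ico a b, ∑ k, (T k n * A k (n + 1) + A k (n + 1) * B' k (n + 1))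
        ≤ ∑ n ∈ Finset.Ico a b, U n := Finset.sum_le_sum fun n _ => h3 n
    have e3 : ∑ n ∈ Finset.Ico a b, ∑ k, (T k n * A k n + A k (n + 1) * B' k n)
        ≤ ∑ n ∈ Finset.Ico a b, V0 n := Finset.sum_le_sum fun n _ => h4 n
    have e4 : ∑ n ∈ Finset.Ico a b, ∑ k, A k (n + 1) * B' k (n + 1)
        = ∑ n ∈ Finset.Ico a b, ∑ k, A k n * B' k n := by
      obtain ⟨m, rfl⟩ : ∃ m : ℕ, b = a + m := ⟨(b - a).toNat, by omega⟩
      have h := sum_Ico_tel (fun n => ∑ k, A k n * B' k n) a m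
      simp only [hAa, hAb, zero_mul, Finset.sum_const_zero, add_zero, sub_zero] at h
      exact h
    have e5 : ∑ n ∈ Finset.Ico a b, ∑ k, c k n ^ 2 ≤ ∑ n ∈ Finset.Ico a b, ∑ k,
        (T k n * A k (n + 1) + A k n * B' k n + (T k n * A k n + A k (n + 1) * B' k n)) := by
      refine Finset.sum_le_sum fun n _ => Finset.sum_le_sum fun k _ => ?_
      rw [h6]
      have g1 := hA k n
      have g2 := hA k (n + 1)
      have g3 := h7 k n
      have g4 := hBB k n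
      nlinarith [mul_nonneg (add_nonneg g1 g2) (sub_nonneg.2 g3),
        mul_nonneg (add_nonneg g1 g2) (sub_nonneg.2 g4)]
    have e6 : ∑ n ∈ Finset.Ico a b, ∑ k,
        (T k n * A k (n + 1) + A k n * B' k n + (T k n * A k n + A k (n + 1) * B' k n))
        = ∑ n ∈ Finset.Ico a b, ∑ k, (T k n * A k (n + 1) + A k (n + 1) * B' k (n + 1))
        + ∑ n ∈ Finset.Ico a b, ∑ k, (T k n * A k n + A k (n + 1) * B' k n) := by
      simp only [Finset.sum_add_distrib] at e4 ⊢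
      linarith
    linarith
  have hle : ∑ n ∈ Finset.Ico a b, E n ≤ ∑ n ∈ Finset.Ico a b, ∑ k, c k n ^ 2 :=
    Finset.sum_le_sum fun n _ => hE n
  exact (Finset.sum_eq_sum_iff_of_le fun n _ => hE n).1 (le_antisymm hle key)

universe v u w

variable {C : Type u} [Category.{v} C] [Preadditive C] [HasZeroObject C] [HasShift C ℤ]
  [∀ n : ℤ, (shiftFunctor C n).Additive] [Pretriangulated C]

variable {K : Type w} [Field K] [Linear K C]

/-- the Euler form is additive in the second variable. -/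
theorem chi_add (D : EnriquesType K C) (X : C) {Y₁ Y₂ Y₃ : C} (f : Y₁ ⟶ Y₂) (g : Y₂ ⟶ Y₃)
    (δ : Y₃ ⟶ Y₁⟦(1 : ℤ)⟧) (hT : Triangle.mk f g δ ∈ distTriang C) :
    chi K X Y₂ = chi K X Y₁ + chi K X Y₃ := by
  have hfin := fun X Y => D.homFinite X Y
  let am : ∀ n : ℤ, (X ⟶ Y₁⟦n⟧) →ₗ[K] (X ⟶ Y₂⟦n⟧) := fun n => post K X (f⟦n⟧')
  let bm : ∀ n : ℤ, (X ⟶ Y₂⟦n⟧) →ₗ[K] (X ⟶ Y₃⟦n⟧) := fun n => post K X (g⟦n⟧')
  let cm : ∀ n : ℤ, (X ⟶ Y₃⟦n⟧) →ₗ[K] (X ⟶ Y₁⟦n + 1⟧) := fun n =>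
    post K X (δ⟦n⟧' ≫ (shiftFunctorAdd' C 1 n (n + 1) (add_comm 1 n)).inv.app Y₁)
  have hfg : f ≫ g = 0 := comp_distTriang_mor_zero₁₂ _ hT
  have hgd : g ≫ δ = 0 := comp_distTriang_mor_zero₂₃ _ hT
  have hdf : δ ≫ f⟦(1 : ℤ)⟧' = 0 := comp_distTriang_mor_zero₃₁ _ hT
  let ra : ℤ → ℕ := fun n => finrank K (LinearMap.range (am n))
  let rb : ℤ → ℕ := fun n => finrank K (LinearMap.range (bm n))
  let rc : ℤ → ℕ := fun n => finrank K (LinearMap.range (cm n))
  have e2 : ∀ n, finrank K (X ⟶ Y₂⟦n⟧) = ra n + rb n := fun n => by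
    refine rank_exact (am n) (bm n) (fun x hx => coyo₂ _ hT n x hx) (fun y => ?_)
    change (y ≫ f⟦n⟧') ≫ g⟦n⟧' = 0
    rw [Category.assoc, ← Functor.map_comp, hfg, Functor.map_zero, comp_zero]
  have e3 : ∀ n, finrank K (X ⟶ Y₃⟦n⟧) = rb n + rc n := fun n => by
    refine rank_exact (bm n) (cm n) (fun x hx => ?_) (fun y => ?_)
    · have hx' : x ≫ δ⟦n⟧' = 0 := by
        have h1 : x ≫ δ⟦n⟧' ≫ (shiftFunctorAdd' C 1 n (n + 1) (add_comm 1 n)).inv.app Y₁ = 0 := hx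
        rw [← cancel_mono ((shiftFunctorAdd' C 1 n (n + 1) (add_comm 1 n)).inv.app Y₁),
          Category.assoc, h1, zero_comp]
      exact coyo₂ _ (rot_of_distTriang _ hT) n x hx'
    · change (y ≫ g⟦n⟧') ≫ δ⟦n⟧' ≫ _ = 0
      rw [Category.assoc, ← Category.assoc (g⟦n⟧'), ← Functor.map_comp, hgd, Functor.map_zero,
        zero_comp, comp_zero]
  have e1 : ∀ n, finrank K (X ⟶ Y₁⟦n + 1⟧) = rc n + ra (n + 1) := fun n => by
    refine rank_exact (cm n) (am (n + 1)) (fun x hx => ?_) (fun y => ?_)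
    · have hx1 : x ≫ f⟦n + 1⟧' = 0 := hx
      have hx' : (x ≫ (shiftFunctorAdd' C 1 n (n + 1) (add_comm 1 n)).hom.app Y₁) ≫
          (-f⟦(1 : ℤ)⟧')⟦n⟧' = 0 := by
        have h2 := (shiftFunctorAdd' C 1 n (n + 1) (add_comm 1 n)).hom.naturality f
        have h3 : (shiftFunctorAdd' C 1 n (n + 1) (add_comm 1 n)).hom.app Y₁ ≫
            (f⟦(1 : ℤ)⟧')⟦n⟧' = f⟦n + 1⟧' ≫
            (shiftFunctorAdd' C 1 n (n + 1) (add_comm 1 n)).hom.app Y₂ := h2.symm
        rw [Functor.map_neg, Preadditive.comp_neg, Category.assoc, h3, ← Category.assoc, hx1,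
          zero_comp, neg_zero]
      obtain ⟨y, hy⟩ := coyo₂ _ (rot_of_distTriang _ (rot_of_distTriang _ hT)) n _ hx'
      refine ⟨y, ?_⟩
      change x = y ≫ δ⟦n⟧' ≫ _
      have hy' : x ≫ (shiftFunctorAdd' C 1 n (n + 1) (add_comm 1 n)).hom.app Y₁ = y ≫ δ⟦n⟧' := hy
      rw [← Category.assoc, ← hy', Category.assoc, Iso.hom_inv_id_app, Category.comp_id]
    · change (y ≫ δ⟦n⟧' ≫ (shiftFunctorAdd' C 1 n (n + 1) (add_comm 1 n)).inv.app Y₁) ≫
        f⟦n + 1⟧' = 0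
      have h2 := (shiftFunctorAdd' C 1 n (n + 1) (add_comm 1 n)).inv.naturality f
      have h3 : (shiftFunctorAdd' C 1 n (n + 1) (add_comm 1 n)).inv.app Y₁ ≫ f⟦n + 1⟧' =
          (f⟦(1 : ℤ)⟧')⟦n⟧' ≫
            (shiftFunctorAdd' C 1 n (n + 1) (add_comm 1 n)).inv.app Y₂ := h2.symm
      rw [Category.assoc, Category.assoc, h3, ← Category.assoc (δ⟦n⟧'), ← Functor.map_comp, hdf,
        Functor.map_zero, zero_comp, comp_zero]
  have fs : ∀ Y : C, (Function.support fun n : ℤ => finrank K (X ⟶ Y⟦n⟧)).Finite := fun Y => by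
    refine (D.extFinite X Y).subset fun n hn => ?_
    by_contra hcon
    have hs : Subsingleton (X ⟶ Y⟦n⟧) := ⟨fun x y => by
      have hx : x = 0 := by
        by_contra h0
        exact hcon ⟨x, h0⟩
      have hy : y = 0 := by
        by_contra h0
        exact hcon ⟨y, h0⟩
      rw [hx, hy]⟩
    exact hn finrank_zero_of_subsingleton
  have fa : (Function.support fun n : ℤ => ((n.negOnePow : ℤˣ) : ℤ) * (ra n : ℤ)).Finite := by
    refine (fs Y₂).subset fun n hn => ?_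
    intro h0
    have h0' : finrank K (X ⟶ Y₂⟦n⟧) = 0 := h0
    rw [e2] at h0'
    apply hn
    have : ra n = 0 := by omega
    simp [this]
  have fb : (Function.support fun n : ℤ => ((n.negOnePow : ℤˣ) : ℤ) * (rb n : ℤ)).Finite := by
    refine (fs Y₂).subset fun n hn => ?_
    intro h0
    have h0' : finrank K (X ⟶ Y₂⟦n⟧) = 0 := h0
    rw [e2] at h0'
    apply hn
    have : rb n = 0 := by omega
    simp [this]
  have fc : (Function.support fun n : ℤ => ((n.negOnePow : ℤˣ) : ℤ) * (rc n : ℤ)).Finite := by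
    refine (fs Y₃).subset fun n hn => ?_
    intro h0
    have h0' : finrank K (X ⟶ Y₃⟦n⟧) = 0 := h0
    rw [e3] at h0'
    apply hn
    have : rc n = 0 := by omega
    simp [this]
  let Sa := ∑ᶠ n : ℤ, ((n.negOnePow : ℤˣ) : ℤ) * (ra n : ℤ)
  let Sb := ∑ᶠ n : ℤ, ((n.negOnePow : ℤˣ) : ℤ) * (rb n : ℤ)
  let Sc := ∑ᶠ n : ℤ, ((n.negOnePow : ℤˣ) : ℤ) * (rc n : ℤ)
  have c2 : chi K X Y₂ = Sa + Sb := by
    unfold chi
    rw [← finsum_add_distrib fa fb]
    refine finsum_congr fun n => ?_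
    rw [e2]
    push_cast
    ring
  have c3 : chi K X Y₃ = Sb + Sc := by
    unfold chi
    rw [← finsum_add_distrib fb fc]
    refine finsum_congr fun n => ?_
    rw [e3]
    push_cast
    ring
  have c1 : chi K X Y₁ = Sa - Sc := by
    have hS : ∑ᶠ n : ℤ, ((n.negOnePow : ℤˣ) : ℤ) * (rc (n - 1) : ℤ) = - Sc := by
      rw [← finsum_comp_equiv (Equiv.addRight (1 : ℤ))
        (f := fun n : ℤ => ((n.negOnePow : ℤˣ) : ℤ) * (rc (n - 1) : ℤ))]
      change _ = - ∑ᶠ n : ℤ, ((n.negOnePow : ℤˣ) : ℤ) * (rc n : ℤ)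
      rw [← finsum_neg_distrib]
      refine finsum_congr fun n => ?_
      change (((n + 1).negOnePow : ℤˣ) : ℤ) * (rc (n + 1 - 1) : ℤ) = _
      rw [add_sub_cancel_right, Int.negOnePow_succ]
      push_cast
      ring
    have fc' : (Function.support fun n : ℤ =>
        ((n.negOnePow : ℤˣ) : ℤ) * (rc (n - 1) : ℤ)).Finite := by
      refine (fs Y₁).subset fun n hn => ?_
      intro h0
      have h0' : finrank K (X ⟶ Y₁⟦n⟧) = 0 := h0
      have h1 := e1 (n - 1)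
      rw [sub_add_cancel, h0'] at h1
      apply hn
      have : rc (n - 1) = 0 := by omega
      simp [this]
    have : chi K X Y₁ = Sa + ∑ᶠ n : ℤ, ((n.negOnePow : ℤˣ) : ℤ) * (rc (n - 1) : ℤ) := by
      unfold chi
      rw [← finsum_add_distrib fa fc']
      refine finsum_congr fun n => ?_
      have h1 := e1 (n - 1)
      rw [sub_add_cancel] at h1
      rw [h1]
      push_cast
      ring
    rw [this, hS]
    ring
  rw [c1, c2, c3]
  ring

/-- the Euler form for objects with morphisms only in three consecutive degrees. -/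
lemma chi_window (X Y : C) (m : ℤ) (h : ∀ n : ℤ, (n < m ∨ m + 3 ≤ n) → HV X Y n) :
    chi K X Y = ((m.negOnePow : ℤˣ) : ℤ) *
      ((hd K X Y m : ℤ) - hd K X Y (m + 1) + hd K X Y (m + 2)) := by
  unfold chi
  rw [finsum_eq_sum_of_support_subset (s := {m, m + 1, m + 2})]
  · rw [Finset.sum_insert (by simp), Finset.sum_insert (by simp), Finset.sum_singleton]
    have e1 : (((m + 1).negOnePow : ℤˣ) : ℤ) = - ((m.negOnePow : ℤˣ) : ℤ) := by
      rw [Int.negOnePow_succ]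
      push_cast
      ring
    have e2 : (((m + 2).negOnePow : ℤˣ) : ℤ) = ((m.negOnePow : ℤˣ) : ℤ) := by
      rw [Int.negOnePow_add, Int.negOnePow_even 2 (by decide), mul_one]
    rw [e1, e2]
    unfold hd
    ring
  · intro n hn
    by_contra hcon
    have hn2 : n < m ∨ m + 3 ≤ n := by
      by_contra h3
      apply hcon
      have : n = m ∨ n = m + 1 ∨ n = m + 2 := by omega
      simpa using this
    apply hn
    have hs : Subsingleton (X ⟶ Y⟦n⟧) := ⟨fun x y => by rw [h n hn2 x, h n hn2 y]⟩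
    simp [finrank_zero_of_subsingleton]

lemma chi_iso_right [∀ n : ℤ, (shiftFunctor C n).Linear K] (X : C) {Y Y' : C} (e : Y ≅ Y') :
    chi K X Y = chi K X Y' := by
  unfold chi
  refine finsum_congr fun n => ?_
  have := hd_iso (K := K) (Iso.refl X) e n
  unfold hd at this
  rw [this]

end Pool.Agent.Helper18.KU
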